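import Pool.Agent.W770.KP.Stm

set_option autoImplicit false

open scoped Classical

namespace Pool.Agent.W987.KP

open Pool.Agent.W770.KP

section

variable {F E : Type} [Field F] [Fintype F] [AddCommGroup E] [Module F E] [Fintype E]

theorem PS_span (f : E → ℝ) (a : E) (v : E) (hv : v ≠ 0) :
    PS f a (Submodule.span F {v}) = ∑ t : F, f (a + t • v) := by
  unfold PS
  rw [← Finset.sum_filter]
  symm
  refine Finset.sum_bij (fun (t : F) _ => a + t • v) ?_ ?_ ?_ ?_
  · intro t _
    rw [Finset.mem_filter]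
    refine ⟨Finset.mem_univ _, ?_⟩
    rw [add_sub_cancel_left]
    exact Submodule.smul_mem _ _ (Submodule.mem_span_singleton_self v)
  · intro s _ t _ h
    have h2 : s • v = t • v := add_left_cancel h
    by_contra hne
    have : (s - t) • v = 0 := by rw [sub_smul, h2, sub_self]
    rcases smul_eq_zero.1 this with h3 | h3
    · exact hne (sub_eq_zero.1 h3)
    · exact hv h3
  · intro x hx
    rw [Finset.mem_filter] at hx
    obtain ⟨t, ht⟩ := Submodule.mem_span_singleton.1 hx.2
    refine ⟨t, Finset.mem_univ _, ?_⟩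
    rw [ht]
    abel
  · intro t _
    rfl

theorem span_mem_Gr (v : E) (hv : v ≠ 0) : Submodule.span F {v} ∈ Gr F E 1 := by
  unfold Gr
  rw [Finset.mem_filter]
  exact ⟨Finset.mem_univ _, finrank_span_singleton hv⟩

/-- the nonzero vectors spanning `W`. -/
noncomputable def Nz (F : Type) {E : Type} [Field F] [AddCommGroup E] [Module F E] [Fintype E]
    (W : Submodule F E) : Finset E :=
  ((Finset.univ : Finset E).filter (fun v => v ≠ 0)).filter
    (fun v => Submodule.span F {v} = W)

theorem Nz_lower (W : Submodule F E) (hW : W ∈ Gr F E 1) :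
    Fintype.card F - 1 ≤ (Nz F W).card := by
  have hW1 : Module.finrank F W = 1 := (Finset.mem_filter.1 hW).2
  obtain ⟨w, hw0, hw⟩ := finrank_eq_one_iff'.1 hW1
  have hw0' : (w : E) ≠ 0 := by
    intro h
    exact hw0 (Subtype.ext h)
  have hspan : Submodule.span F {(w : E)} = W := by
    apply le_antisymm
    · rw [Submodule.span_singleton_le_iff_mem]
      exact w.2
    · intro x hx
      obtain ⟨c, hc⟩ := hw ⟨x, hx⟩
      rw [Submodule.mem_span_singleton]
      exact ⟨c, congrArg Subtype.val hc⟩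
  have hcard : (Finset.univ : Finset Fˣ).card = Fintype.card F - 1 := by
    rw [Finset.card_univ, Fintype.card_units]
  rw [← hcard]
  refine Finset.card_le_card_of_injOn (fun c : Fˣ => (c : F) • (w : E)) ?_ ?_
  · intro c _
    rw [Finset.mem_coe]
    unfold Nz
    rw [Finset.mem_filter, Finset.mem_filter]
    refine ⟨⟨Finset.mem_univ _, ?_⟩, ?_⟩
    · exact smul_ne_zero c.ne_zero hw0'
    · show Submodule.span F {(c : F) • (w : E)} = W
      rw [Submodule.span_singleton_smul_eq c.isUnit, hspan]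
  · intro c _ d _ h
    have h2 : (c : F) • (w : E) = (d : F) • (w : E) := h
    have : ((c : F) - (d : F)) • (w : E) = 0 := by rw [sub_smul, h2, sub_self]
    rcases smul_eq_zero.1 this with h3 | h3
    · exact Units.ext (sub_eq_zero.1 h3)
    · exact absurd h3 hw0'

theorem Nz_upper (W : Submodule F E) (hW : W ∈ Gr F E 1) :
    (Nz F W).card ≤ Fintype.card F - 1 := by
  have hW1 : Module.finrank F W = 1 := (Finset.mem_filter.1 hW).2
  obtain ⟨w, hw0, hw⟩ := finrank_eq_one_iff'.1 hW1
  have hcard : (Finset.univ : Finset Fˣ).card = Fintype.card F - 1 := by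
    rw [Finset.card_univ, Fintype.card_units]
  rw [← hcard]
  have hsub : Nz F W ⊆ (Finset.univ : Finset Fˣ).image (fun c : Fˣ => (c : F) • (w : E)) := by
    intro v hv
    unfold Nz at hv
    rw [Finset.mem_filter, Finset.mem_filter] at hv
    have hvW : v ∈ W := by
      rw [← hv.2]
      exact Submodule.mem_span_singleton_self v
    obtain ⟨c, hc⟩ := hw ⟨v, hvW⟩
    have hc' : c • (w : E) = v := congrArg Subtype.val hc
    have hc0 : c ≠ 0 := by
      intro h
      rw [h, zero_smul] at hc'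
      exact hv.1.2 hc'.symm
    rw [Finset.mem_image]
    exact ⟨Units.mk0 c hc0, Finset.mem_univ _, hc'⟩
  exact le_trans (Finset.card_le_card hsub) Finset.card_image_le

theorem sum_fiber (G : Submodule F E → ℝ) :
    ∑ v ∈ (Finset.univ : Finset E).filter (fun v => v ≠ 0), G (Submodule.span F {v})
      = ∑ W ∈ Gr F E 1, ((Nz F W).card : ℝ) * G W := by
  rw [← Finset.sum_fiberwise_of_maps_to (g := fun v : E => Submodule.span F {v})
    (t := Gr F E 1) (fun v hv => span_mem_Gr v (Finset.mem_filter.1 hv).2)]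
  refine Finset.sum_congr rfl ?_
  intro W _
  have : ∀ v ∈ ((Finset.univ : Finset E).filter (fun v => v ≠ 0)).filter
      (fun v => Submodule.span F {v} = W), G (Submodule.span F {v}) = G W := by
    intro v hv
    rw [(Finset.mem_filter.1 hv).2]
  rw [Finset.sum_congr rfl this, Finset.sum_const, nsmul_eq_mul]
  rfl

end

theorem sa1 : S_SA1 := by
  intro n hn hL
  obtain ⟨C, hC, hL⟩ := hL
  refine ⟨2 * C, by positivity, ?_⟩
  intro F E _ _ _ _ _ hE f hf a
  set q : ℝ := (Fintype.card F : ℝ) with hq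
  have hq2 : 2 ≤ Fintype.card F := Fintype.one_lt_card
  have hq2' : (2 : ℝ) ≤ q := by rw [hq]; exact_mod_cast hq2
  have hqc : ((Fintype.card F - 1 : ℕ) : ℝ) = q - 1 := by
    rw [Nat.cast_sub (by omega), hq, Nat.cast_one]
  have h1 := hL F E hE f hf (fun v => a (Submodule.span F {v}))
  have h2 : ∑ v ∈ (Finset.univ : Finset E).filter (fun v => v ≠ 0),
      (∑ t : F, f (a (Submodule.span F {v}) + t • v)) ^ n
      = ∑ v ∈ (Finset.univ : Finset E).filter (fun v => v ≠ 0),
        (fun W : Submodule F E => (PS f (a W) W) ^ n) (Submodule.span F {v}) := by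
    refine Finset.sum_congr rfl ?_
    intro v hv
    have := PS_span (F := F) f (a (Submodule.span F {v})) v (Finset.mem_filter.1 hv).2
    simp only [this]
  have h3 := sum_fiber (F := F) (E := E) (fun W : Submodule F E => (PS f (a W) W) ^ n)
  have hPS : ∀ W : Submodule F E, 0 ≤ PS f (a W) W := by
    intro W
    unfold PS
    refine Finset.sum_nonneg ?_
    intro x _
    split_ifs
    · exact hf x
    · exact le_rfl
  have h4 : (q - 1) * ∑ W ∈ Gr F E 1, (PS f (a W) W) ^ n
      ≤ ∑ W ∈ Gr F E 1, ((Nz F W).card : ℝ) * (PS f (a W) W) ^ n := by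
    rw [Finset.mul_sum]
    refine Finset.sum_le_sum ?_
    intro W hW
    refine mul_le_mul_of_nonneg_right ?_ (pow_nonneg (hPS W) n)
    rw [← hqc]
    exact_mod_cast Nz_lower W hW
  have h5 : q ^ n - 1 ≤ (q - 1) * ((Gr F E 1).card : ℝ) := by
    have e := sum_fiber (F := F) (E := E) (fun _ => (1 : ℝ))
    have e1 : ∑ v ∈ (Finset.univ : Finset E).filter (fun v => v ≠ 0), (1 : ℝ) = q ^ n - 1 := by
      rw [Finset.sum_const, nsmul_eq_mul, mul_one]
      have e2 : (Finset.univ : Finset E).filter (fun v => v ≠ 0) = Finset.univ.erase 0 := by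
        ext v
        simp
      rw [e2, Finset.card_erase_of_mem (Finset.mem_univ _), Finset.card_univ,
        Module.card_eq_pow_finrank (K := F) (V := E), hE, Nat.cast_sub, Nat.cast_pow, Nat.cast_one]
      exact Nat.one_le_pow _ _ (by omega)
    rw [e1] at e
    rw [e]
    have e3 : ∑ W ∈ Gr F E 1, ((Nz F W).card : ℝ) * 1 ≤ ∑ W ∈ Gr F E 1, (q - 1) := by
      refine Finset.sum_le_sum ?_
      intro W hW
      rw [mul_one, ← hqc]
      exact_mod_cast Nz_upper W hW
    refine le_trans e3 ?_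
    rw [Finset.sum_const, nsmul_eq_mul, mul_comm]
  have h6 : (2 : ℝ) ≤ q ^ n := by
    calc (2 : ℝ) ≤ q := hq2'
      _ = q ^ 1 := (pow_one q).symm
      _ ≤ q ^ n := pow_le_pow_right₀ (by linarith) hn
  have h7 : q ^ n ≤ 2 * ((q - 1) * ((Gr F E 1).card : ℝ)) := by linarith
  have hS : 0 ≤ ∑ x : E, (f x) ^ n := Finset.sum_nonneg (fun x _ => pow_nonneg (hf x) n)
  have h8 : (q - 1) * ∑ W ∈ Gr F E 1, (PS f (a W) W) ^ n
      ≤ (q - 1) * (2 * C * ((Gr F E 1).card : ℝ) * ∑ x : E, (f x) ^ n) := by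
    calc (q - 1) * ∑ W ∈ Gr F E 1, (PS f (a W) W) ^ n
        ≤ ∑ W ∈ Gr F E 1, ((Nz F W).card : ℝ) * (PS f (a W) W) ^ n := h4
      _ = ∑ v ∈ (Finset.univ : Finset E).filter (fun v => v ≠ 0),
          (∑ t : F, f (a (Submodule.span F {v}) + t • v)) ^ n := by rw [h2, h3]
      _ ≤ C * q ^ n * ∑ x : E, (f x) ^ n := h1
      _ ≤ C * (2 * ((q - 1) * ((Gr F E 1).card : ℝ))) * ∑ x : E, (f x) ^ n := by
          refine mul_le_mul_of_nonneg_right ?_ hS
          exact mul_le_mul_of_nonneg_left h7 hC.le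
      _ = (q - 1) * (2 * C * ((Gr F E 1).card : ℝ) * ∑ x : E, (f x) ^ n) := by ring
  have h9 := le_of_mul_le_mul_left h8 (by linarith)
  have h10 : ∀ x : E, (f x) ^ ((n : ℝ) / ((1 : ℕ) : ℝ)) = (f x) ^ n := by
    intro x
    rw [Nat.cast_one, div_one, Real.rpow_natCast]
  simp only [h10, pow_one]
  exact h9

end Pool.Agent.W987.KP
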